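import Mathlib

set_option autoImplicit false

/-!
# Triangular derivations in characteristic two

`E A i` is the operator `t^A ∂_i` on the algebra `𝔽₂[t_0, t_1, …]/(t_j²)`, whose basis is
indexed by the finite subsets of `ℕ` (square free monomials).
-/

namespace Pool.Agent.H9.Kreknin

open Finset

variable {R : Type} [CommRing R]

/-- The underlying space: square free polynomials over `R`. -/
abbrev V (R : Type) [CommRing R] := Finset ℕ →₀ R

/-- The operator `t^A ∂_i`. -/
noncomputable def E (R : Type) [CommRing R] (A : Finset ℕ) (i : ℕ) : Module.End R (V R) :=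
  Finsupp.linearCombination R (fun C : Finset ℕ =>
    if i ∈ C ∧ Disjoint A (C.erase i) then Finsupp.single (A ∪ C.erase i) (1 : R) else 0)

theorem E_single (A : Finset ℕ) (i : ℕ) (C : Finset ℕ) :
    E R A i (Finsupp.single C (1 : R)) =
      if i ∈ C ∧ Disjoint A (C.erase i) then Finsupp.single (A ∪ C.erase i) (1 : R) else 0 := by
  rw [E, Finsupp.linearCombination_single, one_smul]

theorem two_eq_zero' [CharP R 2] (x : V R) : x + x = 0 := by
  ext C
  simp only [Finsupp.add_apply, Finsupp.zero_apply]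
  exact CharTwo.add_self_eq_zero _

theorem neg_eq' [CharP R 2] (x : V R) : -x = x := by
  rw [neg_eq_iff_add_eq_zero]; exact two_eq_zero' x

theorem end_ext {f g : Module.End R (V R)}
    (h : ∀ C, f (Finsupp.single C 1) = g (Finsupp.single C 1)) :
    f = g := by
  refine Finsupp.lhom_ext' fun C => LinearMap.ext_ring ?_
  exact h C

/-- Commutators of operators with the same derivation vanish. -/
theorem comm_same (A B : Finset ℕ) (i : ℕ) (hA : i ∉ A) (hB : i ∉ B) :
    ⁅E R A i, E R B i⁆ = 0 := by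
  have key : ∀ A B : Finset ℕ, i ∉ B → E R A i * E R B i = 0 := by
    intro A B hB
    refine end_ext fun C => ?_
    rw [Module.End.mul_apply, E_single]
    split_ifs with h
    · rw [E_single, if_neg]
      · rfl
      · simp [hB]
    · simp
  rw [Ring.lie_def, key A B hB, key B A hA]
  exact sub_self _

theorem comm_notMem (A B : Finset ℕ) (i j : ℕ) (hij : i ≠ j) (hiA : i ∉ A) (hiB : i ∉ B)
    (hjB : j ∉ B) (hjA : j ∉ A) : ⁅E R A i, E R B j⁆ = 0 := by
  rw [Ring.lie_def, sub_eq_zero]
  refine end_ext fun C => ?_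
  rw [Module.End.mul_apply, Module.End.mul_apply, E_single, E_single]
  have cond : ((j ∈ C ∧ Disjoint B (C.erase j)) ∧ (i ∈ B ∪ C.erase j ∧
      Disjoint A ((B ∪ C.erase j).erase i))) ↔ ((i ∈ C ∧ Disjoint A (C.erase i)) ∧
      (j ∈ A ∪ C.erase i ∧ Disjoint B ((A ∪ C.erase i).erase j))) := by
    simp only [Finset.disjoint_left, Finset.mem_union, Finset.mem_erase]
    constructor
    · rintro ⟨⟨h1, h2⟩, h3, h4⟩
      refine ⟨⟨?_, ?_⟩, ?_, ?_⟩
      · rcases h3 with h3 | h3
        · exact absurd h3 hiB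
        · exact h3.2
      · intro a ha hac
        by_cases haj : a = j
        · exact hjA (haj ▸ ha)
        · exact h4 ha ⟨hac.1, Or.inr ⟨haj, hac.2⟩⟩
      · exact Or.inr ⟨hij.symm, h1⟩
      · intro a ha hac
        rcases hac.2 with h5 | h5
        · exact h4 h5 ⟨fun e => hiA (e ▸ h5), Or.inl ha⟩
        · exact h2 ha ⟨hac.1, h5.2⟩
    · rintro ⟨⟨h1, h2⟩, h3, h4⟩
      refine ⟨⟨?_, ?_⟩, ?_, ?_⟩
      · rcases h3 with h3 | h3
        · exact absurd h3 hjA
        · exact h3.2
      · intro a ha hac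
        by_cases hai : a = i
        · exact hiB (hai ▸ ha)
        · exact h4 ha ⟨hac.1, Or.inr ⟨hai, hac.2⟩⟩
      · exact Or.inr ⟨hij, h1⟩
      · intro a ha hac
        rcases hac.2 with h5 | h5
        · exact h4 h5 ⟨fun e => hjB (e ▸ h5), Or.inl ha⟩
        · exact h2 ha ⟨hac.1, h5.2⟩
  have sets : A ∪ (B ∪ C.erase j).erase i = B ∪ (A ∪ C.erase i).erase j := by
    ext a
    simp only [Finset.mem_union, Finset.mem_erase]
    constructor
    · rintro (h | ⟨h1, h2 | ⟨h2, h3⟩⟩)
      · exact Or.inr ⟨fun e => hjA (e ▸ h), Or.inl h⟩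
      · exact Or.inl h2
      · exact Or.inr ⟨h2, Or.inr ⟨h1, h3⟩⟩
    · rintro (h | ⟨h1, h2 | ⟨h2, h3⟩⟩)
      · exact Or.inr ⟨fun e => hiB (e ▸ h), Or.inl h⟩
      · exact Or.inl h2
      · exact Or.inr ⟨h2, Or.inr ⟨h1, h3⟩⟩
  have l : E R A i (if j ∈ C ∧ Disjoint B (C.erase j) then
      Finsupp.single (B ∪ C.erase j) (1 : R) else 0) =
      if ((j ∈ C ∧ Disjoint B (C.erase j)) ∧ (i ∈ B ∪ C.erase j ∧
      Disjoint A ((B ∪ C.erase j).erase i))) then
      Finsupp.single (A ∪ (B ∪ C.erase j).erase i) (1 : R) else 0 := by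
    by_cases h : j ∈ C ∧ Disjoint B (C.erase j)
    · rw [if_pos h, E_single]
      exact if_congr (by tauto) rfl rfl
    · rw [if_neg h, map_zero, if_neg (fun h' => h h'.1)]
  have r : E R B j (if i ∈ C ∧ Disjoint A (C.erase i) then
      Finsupp.single (A ∪ C.erase i) (1 : R) else 0) =
      if ((i ∈ C ∧ Disjoint A (C.erase i)) ∧ (j ∈ A ∪ C.erase i ∧
      Disjoint B ((A ∪ C.erase i).erase j))) then
      Finsupp.single (B ∪ (A ∪ C.erase i).erase j) (1 : R) else 0 := by
    by_cases h : i ∈ C ∧ Disjoint A (C.erase i)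
    · rw [if_pos h, E_single]
      exact if_congr (by tauto) rfl rfl
    · rw [if_neg h, map_zero, if_neg (fun h' => h h'.1)]
  rw [l, r, sets]
  exact if_congr cond rfl rfl

/-- `[t^{A ∪ j} ∂_i, t^B ∂_j] = t^A t^B ∂_i` (in characteristic two) for `A`, `B` disjoint. -/
theorem comm_mem [CharP R 2] (A B : Finset ℕ) (i j : ℕ) (hij : i ≠ j) (hiA : i ∉ A) (hiB : i ∉ B)
    (hjB : j ∉ B) (hjA : j ∉ A) :
    ⁅E R (insert j A) i, E R B j⁆ =
      if Disjoint A B then E R (A ∪ B) i else 0 := by
  rw [Ring.lie_def]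
  refine end_ext fun C => ?_
  rw [LinearMap.sub_apply, Module.End.mul_apply, Module.End.mul_apply, E_single, E_single,
    sub_eq_add_neg, neg_eq']
  have l : E R (insert j A) i (if j ∈ C ∧ Disjoint B (C.erase j) then
      Finsupp.single (B ∪ C.erase j) (1 : R) else 0) =
      if (j ∈ C ∧ i ∈ C ∧ Disjoint A B ∧ Disjoint (A ∪ B) (C.erase i)) then
      Finsupp.single (A ∪ B ∪ C.erase i) (1 : R) else 0 := by
    by_cases h : j ∈ C ∧ Disjoint B (C.erase j)
    · rw [if_pos h, E_single]
      have cond : (i ∈ B ∪ C.erase j ∧ Disjoint (insert j A) ((B ∪ C.erase j).erase i)) ↔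
          (j ∈ C ∧ i ∈ C ∧ Disjoint A B ∧ Disjoint (A ∪ B) (C.erase i)) := by
        obtain ⟨h1, h2⟩ := h
        simp only [Finset.disjoint_left, Finset.mem_union, Finset.mem_erase,
          Finset.mem_insert] at h2 ⊢
        constructor
        · rintro ⟨h3, h4⟩
          refine ⟨h1, ?_, ?_, ?_⟩
          · rcases h3 with h3 | h3
            · exact absurd h3 hiB
            · exact h3.2
          · intro a ha hb
            exact h4 (Or.inr ha) ⟨fun e => hiA (e ▸ ha), Or.inl hb⟩
          · rintro a (ha | ha) hac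
            · exact h4 (Or.inr ha) ⟨hac.1, Or.inr ⟨fun e => hjA (e ▸ ha), hac.2⟩⟩
            · exact h2 ha ⟨fun e => hjB (e ▸ ha), hac.2⟩
        · rintro ⟨-, h3, h4, h5⟩
          refine ⟨Or.inr ⟨hij, h3⟩, ?_⟩
          rintro a (ha | ha) ⟨hb, hc | hc⟩
          · exact hjB (ha ▸ hc)
          · exact hc.1 ha
          · exact h4 ha hc
          · exact h5 (Or.inl ha) ⟨hb, hc.2⟩
      have sets : insert j A ∪ (B ∪ C.erase j).erase i = A ∪ B ∪ C.erase i := by
        ext a
        simp only [Finset.mem_union, Finset.mem_erase, Finset.mem_insert]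
        constructor
        · rintro ((h3 | h3) | ⟨h3, h4 | ⟨h4, h5⟩⟩)
          · exact Or.inr ⟨fun e => hij (e.symm.trans h3), h3 ▸ h.1⟩
          · exact Or.inl (Or.inl h3)
          · exact Or.inl (Or.inr h4)
          · exact Or.inr ⟨h3, h5⟩
        · rintro ((h3 | h3) | ⟨h3, h4⟩)
          · exact Or.inl (Or.inr h3)
          · exact Or.inr ⟨fun e => hiB (e ▸ h3), Or.inl h3⟩
          · by_cases haj : a = j
            · exact Or.inl (Or.inl haj)
            · exact Or.inr ⟨h3, Or.inr ⟨haj, h4⟩⟩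
      rw [sets]
      exact if_congr cond rfl rfl
    · rw [if_neg h, map_zero, if_neg]
      rintro ⟨h1, h2, h3, h4⟩
      refine h ⟨h1, ?_⟩
      simp only [Finset.disjoint_left, Finset.mem_union, Finset.mem_erase] at h4 ⊢
      intro a ha hac
      exact h4 (Or.inr ha) ⟨fun e => hiB (e ▸ ha), hac.2⟩
  have r : E R B j (if i ∈ C ∧ Disjoint (insert j A) (C.erase i) then
      Finsupp.single (insert j A ∪ C.erase i) (1 : R) else 0) =
      if (j ∉ C ∧ i ∈ C ∧ Disjoint A B ∧ Disjoint (A ∪ B) (C.erase i)) then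
      Finsupp.single (A ∪ B ∪ C.erase i) (1 : R) else 0 := by
    by_cases h : i ∈ C ∧ Disjoint (insert j A) (C.erase i)
    · rw [if_pos h, E_single]
      obtain ⟨h1, h2⟩ := h
      have hjC : j ∉ C := by
        intro hjC
        exact (Finset.disjoint_left.mp h2 (Finset.mem_insert_self j A))
          (Finset.mem_erase.mpr ⟨hij.symm, hjC⟩)
      have cond : (j ∈ insert j A ∪ C.erase i ∧ Disjoint B ((insert j A ∪ C.erase i).erase j)) ↔
          (j ∉ C ∧ i ∈ C ∧ Disjoint A B ∧ Disjoint (A ∪ B) (C.erase i)) := by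
        simp only [Finset.disjoint_left, Finset.mem_union, Finset.mem_erase,
          Finset.mem_insert] at h2 ⊢
        constructor
        · rintro ⟨h3, h4⟩
          refine ⟨hjC, h1, ?_, ?_⟩
          · intro a ha hb
            exact h4 hb ⟨fun e => hjA (e ▸ ha), Or.inl (Or.inr ha)⟩
          · rintro a (ha | ha) hac
            · exact h2 (Or.inr ha) hac
            · exact h4 ha ⟨fun e => hjB (e ▸ ha), Or.inr hac⟩
        · rintro ⟨-, h3, h4, h5⟩
          refine ⟨Or.inl (Or.inl trivial), ?_⟩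
          rintro a ha ⟨hb, (hc | hc) | hc⟩
          · exact hb hc
          · exact h4 hc ha
          · exact h5 (Or.inr ha) hc
      have sets : B ∪ (insert j A ∪ C.erase i).erase j = A ∪ B ∪ C.erase i := by
        ext a
        simp only [Finset.mem_union, Finset.mem_erase, Finset.mem_insert]
        constructor
        · rintro (h3 | ⟨h3, (h4 | h4) | h4⟩)
          · exact Or.inl (Or.inr h3)
          · exact absurd h4 h3
          · exact Or.inl (Or.inl h4)
          · exact Or.inr h4
        · rintro ((h3 | h3) | ⟨h3, h4⟩)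
          · exact Or.inr ⟨fun e => hjA (e ▸ h3), Or.inl (Or.inr h3)⟩
          · exact Or.inl h3
          · exact Or.inr ⟨fun e => hjC (e ▸ h4), Or.inr ⟨h3, h4⟩⟩
      rw [sets]
      exact if_congr cond rfl rfl
    · rw [if_neg h, map_zero, if_neg]
      rintro ⟨h1, h2, h3, h4⟩
      refine h ⟨h2, ?_⟩
      simp only [Finset.disjoint_left, Finset.mem_union, Finset.mem_erase,
        Finset.mem_insert] at h4 ⊢
      rintro a (ha | ha) hac
      · exact h1 (ha ▸ hac.2)
      · exact h4 (Or.inl ha) hac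
  rw [l, r]
  by_cases hd : Disjoint A B
  · rw [if_pos hd, E_single]
    by_cases hj : j ∈ C
    · rw [if_neg (c := (j ∉ C ∧ _)) (fun h => h.1 hj), add_zero]
      exact if_congr (by tauto) rfl rfl
    · rw [if_neg (c := (j ∈ C ∧ _)) (fun h => hj h.1), zero_add]
      exact if_congr (by tauto) rfl rfl
  · rw [if_neg (fun h => hd h.2.2.1), if_neg (fun h => hd h.2.2.1), if_neg hd, add_zero]
    rfl

end Pool.Agent.H9.Kreknin
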