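import Pool.Agent.H9.KrekninLower

set_option autoImplicit false
set_option linter.unusedSectionVars false

/-!
# The graded Lie ring of triangular derivations
-/

namespace Pool.Agent.H9.Kreknin

open Finset

attribute [local instance 100] LieRing.ofAssociativeRing

/-- The derived series of a Lie ring: `L^(0) = L`, and `L^(s+1)` is the additive subgroup generated
by all brackets of two elements of `L^(s)`. -/
def derived (L : Type) [LieRing L] : ℕ → AddSubgroup L
  | 0 => ⊤
  | s + 1 => AddSubgroup.closure {z | ∃ x ∈ derived L s, ∃ y ∈ derived L s, z = ⁅x, y⁆}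

/-- `𝒜` makes the Lie ring `L` a `(ℤ/n)`-graded Lie ring: every element is in a unique way a sum of
elements of the subgroups `𝒜 w`, and `[𝒜 u, 𝒜 v] ⊆ 𝒜 (u + v)`. -/
structure IsGrading (n : ℕ) [NeZero n] (L : Type) [LieRing L] (𝒜 : ZMod n → AddSubgroup L) :
    Prop where
  unique_sum : ∀ x : L, ∃! f : ZMod n → L, (∀ w, f w ∈ 𝒜 w) ∧ ∑ w, f w = x
  bracket_mem : ∀ u v : ZMod n, ∀ x ∈ 𝒜 u, ∀ y ∈ 𝒜 v, ⁅x, y⁆ ∈ 𝒜 (u + v)

section

variable {R : Type} [CommRing R] [CharP R 2] {n : ℕ} (g : ℕ → ZMod n) (k : ℕ)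

/-- The weight of `t^A ∂_i`. -/
def wt (A : Finset ℕ) (i : ℕ) : ZMod n := g i - ∑ j ∈ A, g j

theorem end_neg (x : Module.End R (V R)) : -x = x := by
  refine end_ext fun C => ?_
  rw [LinearMap.neg_apply, neg_eq']

theorem lie_comm' (x y : Module.End R (V R)) : ⁅x, y⁆ = ⁅y, x⁆ := by
  rw [← lie_skew, end_neg]

theorem bracket_lt {A B : Finset ℕ} {i j : ℕ} (hji : j < i) (hA : A ⊆ range i)
    (hB : B ⊆ range j) :
    ⁅E R A i, E R B j⁆ = 0 ∨ ∃ C ⊆ range i, wt g C i = wt g A i + wt g B j ∧ ⁅E R A i, E R B j⁆ = E R C i := by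
  have hiA : i ∉ A := fun h => by simpa using hA h
  have hiB : i ∉ B := fun h => by
    have := hB h
    rw [mem_range] at this
    omega
  have hjB : j ∉ B := fun h => by simpa using hB h
  by_cases hjA : j ∈ A
  · obtain ⟨A', hA', rfl⟩ : ∃ A', j ∉ A' ∧ insert j A' = A :=
      ⟨A.erase j, notMem_erase j A, insert_erase hjA⟩
    rw [comm_mem A' B i j hji.ne' (fun h => hiA (mem_insert_of_mem h)) hiB hjB hA']
    by_cases hd : Disjoint A' B
    · right
      refine ⟨A' ∪ B, ?_, ?_, by rw [if_pos hd]⟩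
      · refine union_subset ((subset_insert _ _).trans hA) (hB.trans ?_)
        exact range_subset_range.mpr hji.le
      · rw [wt, wt, wt, sum_union hd, sum_insert hA']
        ring
    · left
      rw [if_neg hd]
  · left
    exact comm_notMem A B i j hji.ne' hiA hiB hjB hjA

/-- Span of the `t^A ∂_i` with `s ≤ i < k`. -/
noncomputable def T (R : Type) [CommRing R] (s : ℕ) : AddSubgroup (Module.End R (V R)) :=
  AddSubgroup.closure {x | ∃ i A, s ≤ i ∧ i < k ∧ A ⊆ range i ∧ x = E R A i}

/-- Span of the `t^A ∂_i` with `i < k` of weight `w`. -/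
noncomputable def S (R : Type) [CommRing R] (w : ZMod n) : AddSubgroup (Module.End R (V R)) :=
  AddSubgroup.closure {x | ∃ i A, i < k ∧ A ⊆ range i ∧ wt g A i = w ∧ x = E R A i}

theorem lie_mem_closure {M : Type} [LieRing M] {X Y : Set M} {Z : AddSubgroup M}
    (h : ∀ x ∈ X, ∀ y ∈ Y, ⁅x, y⁆ ∈ Z) {x y : M} (hx : x ∈ AddSubgroup.closure X)
    (hy : y ∈ AddSubgroup.closure Y) : ⁅x, y⁆ ∈ Z := by
  induction hx using AddSubgroup.closure_induction with
  | mem x hx =>
    induction hy using AddSubgroup.closure_induction with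
    | mem y hy => exact h x hx y hy
    | zero => rw [lie_zero]; exact Z.zero_mem
    | add a b _ _ ha hb => rw [lie_add]; exact Z.add_mem ha hb
    | neg a _ ha => rw [lie_neg]; exact Z.neg_mem ha
  | zero => rw [zero_lie]; exact Z.zero_mem
  | add a b _ _ ha hb => rw [add_lie]; exact Z.add_mem ha hb
  | neg a _ ha => rw [neg_lie]; exact Z.neg_mem ha

theorem T_lie {s : ℕ} {x y : Module.End R (V R)} (hx : x ∈ T k R s) (hy : y ∈ T k R s) :
    ⁅x, y⁆ ∈ T k R (s + 1) := by
  refine lie_mem_closure (X := {x | ∃ i A, s ≤ i ∧ i < k ∧ A ⊆ range i ∧ x = E R A i})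
    (Y := {x | ∃ i A, s ≤ i ∧ i < k ∧ A ⊆ range i ∧ x = E R A i}) ?_ hx hy
  rintro _ ⟨i, A, hsi, hik, hA, rfl⟩ _ ⟨j, B, hsj, hjk, hB, rfl⟩
  rcases lt_trichotomy i j with h | h | h
  · rw [lie_comm']
    rcases bracket_lt (R := R) (fun _ => (0 : ZMod 1)) h hB hA with h0 | ⟨C, hC, -, h0⟩
    · rw [h0]; exact AddSubgroup.zero_mem _
    · rw [h0]; exact AddSubgroup.subset_closure ⟨j, C, by omega, hjk, hC, rfl⟩
  · subst h
    rw [comm_same A B i (fun h => by simpa using hA h) (fun h => by simpa using hB h)]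
    exact AddSubgroup.zero_mem _
  · rcases bracket_lt (R := R) (fun _ => (0 : ZMod 1)) h hA hB with h0 | ⟨C, hC, -, h0⟩
    · rw [h0]; exact AddSubgroup.zero_mem _
    · rw [h0]; exact AddSubgroup.subset_closure ⟨i, C, by omega, hik, hC, rfl⟩

theorem T_mono {s t : ℕ} (h : s ≤ t) : T k R t ≤ T k R s := by
  refine AddSubgroup.closure_mono ?_
  rintro _ ⟨i, A, h1, h2, h3, rfl⟩
  exact ⟨i, A, h.trans h1, h2, h3, rfl⟩

theorem S_lie {u v : ZMod n} {x y : Module.End R (V R)} (hx : x ∈ S g k R u)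
    (hy : y ∈ S g k R v) : ⁅x, y⁆ ∈ S g k R (u + v) := by
  refine lie_mem_closure (X := {x | ∃ i A, i < k ∧ A ⊆ range i ∧ wt g A i = u ∧ x = E R A i})
    (Y := {x | ∃ i A, i < k ∧ A ⊆ range i ∧ wt g A i = v ∧ x = E R A i}) ?_ hx hy
  rintro _ ⟨i, A, hik, hA, hu, rfl⟩ _ ⟨j, B, hjk, hB, hv, rfl⟩
  rcases lt_trichotomy i j with h | h | h
  · rw [lie_comm']
    rcases bracket_lt (R := R) g h hB hA with h0 | ⟨C, hC, hw, h0⟩
    · rw [h0]; exact AddSubgroup.zero_mem _
    · rw [h0]
      refine AddSubgroup.subset_closure ⟨j, C, hjk, hC, ?_, rfl⟩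
      rw [hw, hu, hv, add_comm]
  · subst h
    rw [comm_same A B i (fun h => by simpa using hA h) (fun h => by simpa using hB h)]
    exact AddSubgroup.zero_mem _
  · rcases bracket_lt (R := R) g h hA hB with h0 | ⟨C, hC, hw, h0⟩
    · rw [h0]; exact AddSubgroup.zero_mem _
    · rw [h0]
      refine AddSubgroup.subset_closure ⟨i, C, hik, hC, ?_, rfl⟩
      rw [hw, hu, hv]

theorem S_le_T (w : ZMod n) : S g k R w ≤ T k R 0 := by
  refine AddSubgroup.closure_mono ?_
  rintro _ ⟨i, A, h1, h2, -, rfl⟩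
  exact ⟨i, A, Nat.zero_le _, h1, h2, rfl⟩

/-- Elements of `S w` are homogeneous operators. -/
theorem S_homog {w : ZMod n} {x : Module.End R (V R)} (hx : x ∈ S g k R w) (C D : Finset ℕ)
    (h : x (Finsupp.single C 1) D ≠ 0) : w = ∑ j ∈ C, g j - ∑ j ∈ D, g j := by
  induction hx using AddSubgroup.closure_induction with
  | mem x hx =>
    obtain ⟨i, A, hik, hA, hw, rfl⟩ := hx
    rw [E_single] at h
    split_ifs at h with hc
    · rw [Finsupp.single_apply] at h
      split_ifs at h with hD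
      · subst hD
        have e1 : ∑ j ∈ C, g j = g i + ∑ j ∈ C.erase i, g j := by
          rw [add_comm, Finset.sum_erase_add _ _ hc.1]
        rw [← hw, wt, sum_union hc.2, e1]
        ring
      · exact absurd rfl h
    · exact absurd rfl h
  | zero => exact absurd rfl h
  | add a b _ _ ha hb =>
    rw [LinearMap.add_apply, Finsupp.add_apply] at h
    by_cases h1 : a (Finsupp.single C 1) D = 0
    · rw [h1, zero_add] at h
      exact hb h
    · exact ha h1
  | neg a _ ha =>
    rw [LinearMap.neg_apply, Finsupp.neg_apply, neg_ne_zero] at h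
    exact ha h

variable [NeZero n]

theorem S_indep (f : ZMod n → Module.End R (V R)) (hf : ∀ w, f w ∈ S g k R w)
    (h0 : ∑ w, f w = 0) (w : ZMod n) : f w = 0 := by
  refine end_ext fun C => ?_
  ext D
  rw [LinearMap.zero_apply, Finsupp.zero_apply]
  by_contra hne
  have hw := S_homog g k (hf w) C D hne
  have h1 : (∑ w, f w) (Finsupp.single C 1) D = f w (Finsupp.single C 1) D := by
    rw [LinearMap.sum_apply, Finsupp.finsetSum_apply]
    refine Finset.sum_eq_single w ?_ ?_
    · intro v _ hv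
      by_contra hne'
      exact hv ((S_homog g k (hf v) C D hne').trans hw.symm)
    · intro h
      exact absurd (mem_univ w) h
  rw [h0] at h1
  exact hne h1.symm

theorem exists_sum {x : Module.End R (V R)} (hx : x ∈ T k R 0) :
    ∃ f : ZMod n → Module.End R (V R), (∀ w, f w ∈ S g k R w) ∧ ∑ w, f w = x := by
  induction hx using AddSubgroup.closure_induction with
  | mem x hx =>
    obtain ⟨i, A, -, hik, hA, rfl⟩ := hx
    refine ⟨fun w => if wt g A i = w then E R A i else 0, ?_, ?_⟩
    · intro w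
      dsimp only
      split_ifs with h
      · exact AddSubgroup.subset_closure ⟨i, A, hik, hA, h, rfl⟩
      · exact AddSubgroup.zero_mem _
    · simp
  | zero => exact ⟨fun _ => 0, fun w => AddSubgroup.zero_mem _, by simp⟩
  | add a b _ _ ha hb =>
    obtain ⟨fa, ha1, ha2⟩ := ha
    obtain ⟨fb, hb1, hb2⟩ := hb
    refine ⟨fun w => fa w + fb w, fun w => AddSubgroup.add_mem _ (ha1 w) (hb1 w), ?_⟩
    rw [Finset.sum_add_distrib, ha2, hb2]
  | neg a _ ha =>
    obtain ⟨fa, ha1, ha2⟩ := ha
    exact ⟨fa, ha1, by rw [ha2, end_neg]⟩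

/-- The Lie ring spanned by the `t^A ∂_i`, `i < k`, `A ⊆ {0, …, i-1}`. -/
noncomputable def Lk (R : Type) [CommRing R] [CharP R 2] : LieSubalgebra ℤ (Module.End R (V R)) where
  carrier := T k R 0
  add_mem' := fun ha hb => AddSubgroup.add_mem _ ha hb
  zero_mem' := AddSubgroup.zero_mem _
  smul_mem' := fun c _ hx => AddSubgroup.zsmul_mem _ hx c
  lie_mem' := fun hx hy => T_mono k (Nat.zero_le 1) (T_lie k hx hy)

/-- The grading. -/
noncomputable def grad (R : Type) [CommRing R] [CharP R 2] (w : ZMod n) : AddSubgroup (Lk k R) where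
  carrier := {x | (x : Module.End R (V R)) ∈ S g k R w}
  add_mem' := fun {x y} ha hb => by
    change (x : Module.End R (V R)) + y ∈ S g k R w
    exact AddSubgroup.add_mem _ ha hb
  zero_mem' := by
    change (0 : Module.End R (V R)) ∈ S g k R w
    exact AddSubgroup.zero_mem _
  neg_mem' := fun {x} hx => by
    change -(x : Module.End R (V R)) ∈ S g k R w
    exact AddSubgroup.neg_mem _ hx

theorem grad_isGrading : IsGrading n (Lk k R) (grad g k R) where
  unique_sum := by
    intro x
    obtain ⟨f, hf, hs⟩ := exists_sum g k x.2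
    refine ⟨fun w => ⟨f w, S_le_T g k w (hf w)⟩, ⟨hf, ?_⟩, ?_⟩
    · apply Subtype.ext
      rw [← hs]
      exact map_sum (Lk k R).subtype _ _
    · rintro f' ⟨h1, h2⟩
      funext w
      apply Subtype.ext
      have h3 : ∑ w, ((f' w : Module.End R (V R)) - f w) = 0 := by
        have h4 : ∑ w, (f' w : Module.End R (V R)) = x := by
          rw [← h2]
          exact (map_sum (Lk k R).subtype _ _).symm
        refine (Finset.sum_sub_distrib (fun w => (f' w : Module.End R (V R))) f).trans ?_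
        rw [hs, h4]
        exact sub_self _
      exact sub_eq_zero.mp
        (S_indep g k _ (fun w => AddSubgroup.sub_mem _ (h1 w) (hf w)) h3 w)
  bracket_mem := by
    intro u v x hx y hy
    exact S_lie g k hx hy

theorem grad_zero (hg : ∀ i < k, ∀ A ⊆ range i, g i ≠ ∑ j ∈ A, g j) : grad g k R 0 = ⊥ := by
  rw [eq_bot_iff]
  intro x hx
  have h1 : (x : Module.End R (V R)) ∈ S g k R 0 := hx
  have h2 : {x | ∃ i A, i < k ∧ A ⊆ range i ∧ wt g A i = 0 ∧ x = E R A i} = ∅ := by
    rw [Set.eq_empty_iff_forall_notMem]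
    rintro _ ⟨i, A, hi, hA, hw, -⟩
    exact hg i hi A hA (sub_eq_zero.mp hw)
  rw [S, h2, AddSubgroup.closure_empty, AddSubgroup.mem_bot] at h1
  rw [AddSubgroup.mem_bot]
  exact Subtype.ext h1

theorem derived_le (s : ℕ) (x : Lk k R) (hx : x ∈ derived (Lk k R) s) :
    (x : Module.End R (V R)) ∈ T k R s := by
  induction s generalizing x with
  | zero => exact x.2
  | succ s ih =>
    induction hx using AddSubgroup.closure_induction with
    | mem x hx =>
      obtain ⟨y, hy, z, hz, rfl⟩ := hx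
      exact T_lie k (ih y hy) (ih z hz)
    | zero => exact AddSubgroup.zero_mem _
    | add a b _ _ ha hb => exact AddSubgroup.add_mem _ ha hb
    | neg a _ ha => exact AddSubgroup.neg_mem _ ha

theorem derived_top : derived (Lk k R) k = ⊥ := by
  rw [eq_bot_iff]
  intro x hx
  have h1 := derived_le k k x hx
  have h2 : {x | ∃ i A, k ≤ i ∧ i < k ∧ A ⊆ range i ∧ x = E R A i} = ∅ := by
    rw [Set.eq_empty_iff_forall_notMem]
    rintro _ ⟨i, A, hi, hA, -⟩
    omega
  rw [T, h2, AddSubgroup.closure_empty, AddSubgroup.mem_bot] at h1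
  rw [AddSubgroup.mem_bot]
  exact Subtype.ext h1

theorem E_mem (A : Finset ℕ) (i : ℕ) (hi : i < k) (hA : A ⊆ range i) : E R A i ∈ T k R 0 :=
  AddSubgroup.subset_closure ⟨i, A, Nat.zero_le _, hi, hA, rfl⟩

theorem mem_derived (s : ℕ) (A : Finset ℕ) (i : ℕ) (hi : i < k) (hA : A ⊆ range i)
    (hs : ∀ a ∈ A, s ≤ a) (hsi : s ≤ i) : (⟨E R A i, E_mem k A i hi hA⟩ : Lk k R) ∈ derived (Lk k R) s := by
  induction s generalizing A i with
  | zero => exact AddSubgroup.mem_top _
  | succ s ih =>
    have hsA : s ∉ A := fun h => by have := hs s h; omega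
    have hA' : insert s A ⊆ range i := by
      intro a ha
      rcases mem_insert.mp ha with h | h
      · rw [mem_range]; omega
      · exact hA h
    have h1 := ih (insert s A) i hi hA' (fun a ha => by
      rcases mem_insert.mp ha with h | h
      · omega
      · have := hs a h; omega) (by omega)
    have h2 := ih ∅ s (by omega) (empty_subset _) (fun a ha => absurd ha (notMem_empty a)) le_rfl
    refine AddSubgroup.subset_closure ⟨_, h1, _, h2, ?_⟩
    apply Subtype.ext
    change E R A i = ⁅E R (insert s A) i, E R ∅ s⁆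
    rw [comm_mem A ∅ i s (by omega) (fun h => by simpa using hA h) (notMem_empty _)
      (notMem_empty _) hsA, if_pos (disjoint_empty_right _), union_empty]

variable (R) in
theorem derived_ne [Nontrivial R] (hk : 0 < k) : derived (Lk k R) (k - 1) ≠ ⊥ := by
  intro h
  have h1 := mem_derived (R := R) k (k - 1) ∅ (k - 1) (by omega) (empty_subset _)
    (fun a ha => absurd ha (notMem_empty a)) le_rfl
  rw [h, AddSubgroup.mem_bot] at h1
  have h2 : E R ∅ (k - 1) = 0 := congrArg Subtype.val h1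
  have h3 := E_single (R := R) ∅ (k - 1) {k - 1}
  rw [h2, if_pos (by simp), LinearMap.zero_apply] at h3
  have h4 := congrArg (fun v : V R => v (∅ ∪ ({k - 1} : Finset ℕ).erase (k - 1))) h3
  simp at h4

end

end Pool.Agent.H9.Kreknin
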